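import Pool.Agent.ASG.Main

set_option autoImplicit false

/-!
# Countable sequential groups with analytic topologies (MP_a9e3cf_lc)

THEOREM. Let `G` be a countable sequential Hausdorff group. The topology of `G` is analytic if and only if `G` is
`k_ω` or metrizable, and then the sequential order of `G` is `0`, `1` or `ω₁`. In particular the statements of Q1
and Q2 (every countable sequential group is `k_ω` or metrizable; every countable sequential group is analytic)
are equivalent: one is consistent if and only if the other is.
-/

namespace Pool.Agent.Results.MP_a9e3cf_lc.AnalyticGroups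

open Topology Ordinal

/-- The set of characteristic functions of the open subsets of `X` is a continuous image of the irrationals. -/
def IsAnalytic (X : Type) [TopologicalSpace X] : Prop :=
  ∃ f : (ℕ → ℕ) → X → Bool, Continuous f ∧ Set.range f = {φ | IsOpen {x | φ x = true}}

/-- `X` is a quotient image of a topological sum of countably many compact spaces. -/
def IsKOmega (X : Type) [TopologicalSpace X] : Prop :=
  ∃ (K : ℕ → Type) (_ : ∀ n, TopologicalSpace (K n)) (_ : ∀ n, CompactSpace (K n))
    (q : (Σ n, K n) → X), IsQuotientMap q

/-- The iterated sequential closures of `A`: `A` for `0`, the set of limits of convergent sequences of points of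
the previous set at successors, the union of the previous sets at limits. -/
noncomputable def iter {X : Type} [TopologicalSpace X] (A : Set X) (α : Ordinal.{0}) : Set X :=
  Ordinal.limitRecOn α A (fun _ S => seqClosure S) (fun α _ S => {x | ∃ β, ∃ h : β < α, x ∈ S β h})

/-- The sequential order of `X`: the least `α` such that the iterate of order `α` of every subset is its
closure. -/
noncomputable def seqOrder (X : Type) [TopologicalSpace X] : Ordinal.{0} :=
  sInf {α | ∀ A : Set X, iter A α = closure A}

/-- The statement of Q1: every countable sequential group is `k_ω` or metrizable. -/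
def StatementOne : Prop :=
  ∀ (G : Type) [Group G] [TopologicalSpace G] [IsTopologicalGroup G] [T2Space G] [Countable G]
    [SequentialSpace G], IsKOmega G ∨ TopologicalSpace.MetrizableSpace G

/-- The statement of Q2: every countable sequential group is analytic. -/
def StatementTwo : Prop :=
  ∀ (G : Type) [Group G] [TopologicalSpace G] [IsTopologicalGroup G] [T2Space G] [Countable G]
    [SequentialSpace G], IsAnalytic G

theorem result :
    (∀ (G : Type) [Group G] [TopologicalSpace G] [IsTopologicalGroup G] [T2Space G] [Countable G]
      [SequentialSpace G],
      (IsAnalytic G ↔ IsKOmega G ∨ TopologicalSpace.MetrizableSpace G) ∧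
      (IsAnalytic G → seqOrder G = 0 ∨ seqOrder G = 1 ∨ seqOrder G = ω₁)) ∧
    (StatementOne ↔ StatementTwo) := by
  have key : ∀ (G : Type) [Group G] [TopologicalSpace G] [IsTopologicalGroup G] [T2Space G]
      [Countable G] [SequentialSpace G],
      (IsAnalytic G ↔ IsKOmega G ∨ TopologicalSpace.MetrizableSpace G) := by
    intro G _ _ _ _ _ _
    exact Pool.Agent.ASG.main G
  refine ⟨?_, ?_, ?_⟩
  · intro G _ _ _ _ _ _
    exact ⟨key G, fun h => Pool.Agent.ASG.main_ord G h⟩
  · intro h G _ _ _ _ _ _
    exact (key G).2 (h G)
  · intro h G _ _ _ _ _ _
    exact (key G).1 (h G)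

end Pool.Agent.Results.MP_a9e3cf_lc.AnalyticGroups
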