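import Pool.Agent.AV.Eng
import Pool.Agent.AV.IxB
import Pool.Agent.AV.IxC
import Pool.Agent.AT.E2

/-!
# MP_3998cf_nt: patterns of differences of square roots of primes with positive proportion

`p n` is the `n`-th prime, `d n = √(p (n+1)) - √(p n)`; the normalised difference `2 √(p n) d n / log (p n)` is
asymptotically the gap `p (n+1) - p n` divided by its mean value `log (p n)`.

(1) For all `m`, `δ` there is `K` such that for any `K` points `β i` of `[0, Λ]` with distances `≥ δ`, a proportion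
`≥ c(m, δ, Λ) > 0` of all `n` has `m` consecutive normalised differences equal, up to `δ`, to the successive
differences of `m + 1` of the points.
(2) For all `k`, `T`, `lam` a positive proportion of all `n` has `k + 1` consecutive differences, the first at
least `lam log (p n)/√(p n)`, each at least `T` times the preceding one; the same in the opposite direction.
-/

set_option autoImplicit false

namespace Pool.Agent.Results.MP_3998cf_nt.PositiveProportion

open Finset Filter

/-- the primes `2, 3, 5, …`, indexed from `0` -/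
noncomputable def p (n : ℕ) : ℝ := Nat.nth Nat.Prime n

/-- `√p_{n+1} - √p_n` -/
noncomputable def d (n : ℕ) : ℝ := √(p (n + 1)) - √(p n)

open Classical in
/-- the number of the `n < N` with the property `A` -/
noncomputable def num (A : ℕ → Prop) (N : ℕ) : ℕ := ((range N).filter A).card

theorem num_eq (A : ℕ → Prop) [DecidablePred A] (N : ℕ) :
    (((range N).filter A).card : ℝ) = num A N := by
  unfold num
  congr!

/-- the property `A` holds for a positive proportion of all `n` -/
def Pos (A : ℕ → Prop) : Prop := ∃ c : ℝ, 0 < c ∧ ∀ᶠ N : ℕ in atTop, c * N ≤ num A N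

theorem result :
    (∀ (m : ℕ) (δ : ℝ), 0 < δ → ∃ K : ℕ, 0 < K ∧ ∀ Λ : ℝ, 0 < Λ → ∃ c : ℝ, 0 < c ∧
      ∀ᶠ N : ℕ in atTop, ∀ β : Fin K → ℝ, (∀ i, 0 ≤ β i ∧ β i ≤ Λ) →
      (∀ i j, i < j → β i + δ ≤ β j) →
      c * N ≤ num (fun n => ∃ i : Fin (m + 1) → Fin K, StrictMono i ∧ ∀ r : Fin m,
        |2 * √(p (n + r)) * d (n + r) / Real.log (p (n + r)) -
          (β (i r.succ) - β (i r.castSucc))| < δ) N) ∧
    (∀ (k : ℕ) (T lam : ℝ),
      Pos (fun n => lam * Real.log (p n) / √(p n) ≤ d n ∧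
        ∀ j < k, T * d (n + j) ≤ d (n + j + 1)) ∧
      Pos (fun n => lam * Real.log (p (n + k)) / √(p (n + k)) ≤ d (n + k) ∧
        ∀ j < k, T * d (n + j + 1) ≤ d (n + j))) := by
  have hP : Pool.Agent.AV.Patt := Pool.Agent.AV.ixB Pool.Agent.AV.sev Pool.Agent.AT.BT
  refine ⟨fun m δ hδ => ?_, fun k T lam => ⟨?_, ?_⟩⟩
  · obtain ⟨K, hK, h⟩ := hP m δ hδ
    refine ⟨K, hK, fun Λ hΛ => ?_⟩
    obtain ⟨c, hc, N0, h1⟩ := h Λ hΛ
    refine ⟨c, hc, eventually_atTop.2 ⟨N0, fun N hN β h2 h3 => ?_⟩⟩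
    have h4 := h1 N hN β h2 h3
    rw [num_eq] at h4
    exact h4
  · obtain ⟨c, hc, N0, h⟩ := Pool.Agent.AV.grow hP k T lam
    refine ⟨c, hc, eventually_atTop.2 ⟨N0, fun N hN => ?_⟩⟩
    have h4 := h N hN
    rw [num_eq] at h4
    exact h4
  · obtain ⟨c, hc, N0, h⟩ := Pool.Agent.AV.shrink hP k T lam
    refine ⟨c, hc, eventually_atTop.2 ⟨N0, fun N hN => ?_⟩⟩
    have h4 := h N hN
    rw [num_eq] at h4
    exact h4

end Pool.Agent.Results.MP_3998cf_nt.PositiveProportion
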